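import Pool.Agent.Helper70.Isg.Goals2

/-!
# Packet EXU for MP_600500_pr: the finite volume recursion has exactly one solution
-/

noncomputable section

namespace Pool.Agent.Helper33.Isg

open Pool.Agent.Helper70.Isg

/-- existence and uniqueness for a recursion along a strict order on a finite set -/
theorem exu_gen {α : Type} (Λ : Finset α) (r : α → α → Prop)
    (htr : ∀ a b c, r a b → r b c → r a c) (hir : ∀ a, ¬ r a a)
    (F : α → (α → Bool) → Bool)
    (hF : ∀ v, ∀ X X' : α → Bool, (∀ u, r u v → X u = X' u) → F v X = F v X') :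
    ∃! X : α → Bool, (∀ v ∉ Λ, X v = true) ∧ ∀ v ∈ Λ, X v = F v X := by
  classical
  let s : Λ → Λ → Prop := fun a b => r a b
  haveI : IsTrans Λ s := ⟨fun a b c h1 h2 => htr _ _ _ h1 h2⟩
  haveI : Std.Irrefl s := ⟨fun a h => hir _ h⟩
  have hwf : WellFounded s := Finite.wellFounded_of_trans_of_irrefl s
  let G : ∀ v : Λ, (∀ u : Λ, s u v → Bool) → Bool := fun v ih =>
    F v (fun u => if h : ∃ hu : u ∈ Λ, s ⟨u, hu⟩ v then ih ⟨u, h.1⟩ h.2 else true)
  let Y : Λ → Bool := hwf.fix G
  have hY : ∀ v : Λ, Y v = F v (fun u => if h : ∃ hu : u ∈ Λ, s ⟨u, hu⟩ v then Y ⟨u, h.1⟩ else true) := by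
    intro v
    exact hwf.fix_eq G v
  let X : α → Bool := fun u => if h : u ∈ Λ then Y ⟨u, h⟩ else true
  refine ⟨X, ⟨?_, ?_⟩, ?_⟩
  · intro v hv
    simp only [X, dif_neg hv]
  · intro v hv
    have h1 : X v = Y ⟨v, hv⟩ := by simp only [X, dif_pos hv]
    rw [h1, hY]
    apply hF
    intro u hu
    by_cases h2 : u ∈ Λ
    · rw [dif_pos ⟨h2, hu⟩]
      simp only [X, dif_pos h2]
    · rw [dif_neg (fun h => h2 h.1)]
      simp only [X, dif_neg h2]
  · rintro Z ⟨hZ1, hZ2⟩
    have key : ∀ v : Λ, Z v = X v := by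
      intro v
      induction v using hwf.induction with
      | _ v ih =>
        have h1 : X v = Y v := by simp only [X, dif_pos v.2]
        rw [hZ2 v v.2, h1, hY]
        apply hF
        intro u hu
        by_cases h2 : u ∈ Λ
        · rw [dif_pos ⟨h2, hu⟩]
          have h3 := ih ⟨u, h2⟩ hu
          simp only [X, dif_pos h2] at h3
          exact h3
        · rw [dif_neg (fun h => h2 h.1)]
          exact hZ1 u h2
    funext v
    by_cases hv : v ∈ Λ
    · exact key ⟨v, hv⟩
    · rw [hZ1 v hv]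
      simp only [X, dif_neg hv]

variable {d : ℕ}

theorem ev_congr_bc (β : ℝ) (Δ : Finset (Site d)) (η η' : Cfg d) (f : Cfg d → ℝ)
    (h : ∀ v ∉ Δ, η v = η' v) : ev β Δ η f = ev β Δ η' f := by
  have h1 : ∀ τ : Δ → Bool, glue Δ τ η = glue Δ τ η' := by
    intro τ
    funext v
    unfold glue
    by_cases hv : v ∈ Δ
    · rw [dif_pos hv, dif_pos hv]
    · rw [dif_neg hv, dif_neg hv, h v hv]
  unfold ev pf
  simp only [h1]

theorem low_congr (β : ℝ) (v : Site d) (r : ℕ) (P : Site d → Bool) (s : Bool) (a a' : Cfg d)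
    (h : ∀ u, P u = true → a u = a' u) : low β v r P s a = low β v r P s a' := by
  unfold low
  apply ev_congr_bc
  intro u hu
  by_cases h1 : u ∈ ball v r
  · rw [if_pos h1, if_pos h1]
    apply h
    by_contra h2
    apply hu
    rw [Finset.mem_filter]
    exact ⟨h1, by simpa using h2⟩
  · rw [if_neg h1, if_neg h1]

theorem exf_congr (β : ℝ) (Λ : Finset (Site d)) (P : Site d → Bool) (v : Site d) (a a' : Cfg d)
    (h : ∀ u, P u = true → a u = a' u) : exf β Λ P v a = exf β Λ P v a' := by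
  unfold exf
  apply ev_congr_bc
  intro u hu
  by_cases h1 : u ∈ Λ
  · rw [if_pos h1, if_pos h1]
    apply h
    by_contra h2
    apply hu
    rw [Finset.mem_filter]
    exact ⟨h1, by simpa using h2⟩
  · rw [if_neg h1, if_neg h1]

theorem fbit_congr (β : ℝ) (K : ℕ) (Λ : Finset (Site d)) (l : Site d → ℕ) (v : Site d) (k : ℕ)
    (a a' : Cfg d) (h : ∀ u, prb l u v = true → a u = a' u) :
    fbit β K Λ l v k a = fbit β K Λ l v k a' := by
  have h1 : lfin β K Λ l v a = lfin β K Λ l v a' := by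
    funext i
    unfold lfin
    rw [low_congr β v (K * (i + 1)) _ false a a' h, exf_congr β Λ _ v a a' h]
  unfold fbit
  rw [h1]

theorem prb_iff (l : Site d → ℕ) (w v : Site d) :
    prb l w v = true ↔ (l w < l v ∨ (l w = l v ∧ toLex w < toLex v)) := by
  unfold prb
  simp

theorem prb_trans (l : Site d → ℕ) (a b c : Site d) (h1 : prb l a b = true)
    (h2 : prb l b c = true) : prb l a c = true := by
  rw [prb_iff] at *
  rcases h1 with h1 | ⟨h1, h3⟩ <;> rcases h2 with h2 | ⟨h2, h4⟩
  · left; omega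
  · left; omega
  · left; omega
  · right; exact ⟨by omega, h3.trans h4⟩

theorem prb_irrefl (l : Site d → ℕ) (a : Site d) : ¬ prb l a a = true := by
  rw [prb_iff]
  rintro (h | ⟨_, h⟩)
  · exact lt_irrefl _ h
  · exact lt_irrefl _ h

theorem pf_EXU : S_EXU := by
  intro d β K L Λ y
  exact exu_gen Λ (fun u v => prb (lab y) u v = true) (prb_trans _) (prb_irrefl _)
    (fun v X => fbit β K Λ (lab y) v (y v).2 X)
    (fun v X X' h => fbit_congr β K Λ (lab y) v (y v).2 X X' h)

end Pool.Agent.Helper33.Isg
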