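import Pool.Agent.Helper70.Isg.Goals2

/-!
# Packet STEP for MP_600500_pr
-/

set_option autoImplicit false

open Finset

noncomputable section

namespace Pool.Agent.Helper33.Isg

open Pool.Agent.Helper70.Isg

theorem sg_not (b : Bool) : sg (!b) = - sg b := by cases b <;> simp [sg]

theorem iZ3_pos {V ι : Type} [Fintype V] [DecidableEq V] (E : Finset ι) (a b : ι → V) (J : ι → ℝ)
    (h : V → ℝ) {x y j : V} (hxy : x ≠ y) (hxj : x ≠ j) (hyj : y ≠ j) (s t r : Bool) :
    0 < iZ3 E a b J h x y j s t r := by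
  unfold iZ3
  apply Finset.sum_pos'
  · intro σ _
    split_ifs
    · exact (Real.exp_pos _).le
    · exact le_rfl
  · refine ⟨fun v => if v = x then s else if v = y then t else r, Finset.mem_univ _, ?_⟩
    rw [if_pos]
    · exact Real.exp_pos _
    · refine ⟨by simp, ?_, ?_⟩
      · simp [hxy.symm]
      · simp [hxj.symm, hyj.symm]

theorem iE_flip {V ι : Type} [Fintype V] (E : Finset ι) (a b : ι → V) (J : ι → ℝ) (σ : V → Bool) :
    iE E a b J 0 (fun v => !(σ v)) = iE E a b J 0 σ := by
  unfold iE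
  simp [sg_not]

theorem iZ3_flip {V ι : Type} [Fintype V] [DecidableEq V] (E : Finset ι) (a b : ι → V)
    (J : ι → ℝ) (x y j : V) (s t r : Bool) :
    iZ3 E a b J 0 x y j (!s) (!t) (!r) = iZ3 E a b J 0 x y j s t r := by
  unfold iZ3
  refine Finset.sum_bij' (fun σ _ => fun v => !(σ v)) (fun σ _ => fun v => !(σ v))
    (fun _ _ => Finset.mem_univ _) (fun _ _ => Finset.mem_univ _) ?_ ?_ ?_
  · intro σ _
    simp
  · intro σ _
    simp
  · intro σ _
    rw [iE_flip]
    have h1 : (σ x = !s ∧ σ y = !t ∧ σ j = !r) ↔ ((!(σ x)) = s ∧ (!(σ y)) = t ∧ (!(σ j)) = r) := by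
      cases σ x <;> cases σ y <;> cases σ j <;> cases s <;> cases t <;> cases r <;> simp
    by_cases h2 : (σ x = !s ∧ σ y = !t ∧ σ j = !r)
    · rw [if_pos h2, if_pos (h1.1 h2)]
    · rw [if_neg h2, if_neg (fun h3 => h2 (h1.2 h3))]

theorem iZ3_swap {V ι : Type} [Fintype V] [DecidableEq V] (E : Finset ι) (a b : ι → V)
    (J : ι → ℝ) (h : V → ℝ) (x y j : V) (s t r : Bool) :
    iZ3 E a b J h x j y s r t = iZ3 E a b J h x y j s t r := by
  unfold iZ3
  apply Finset.sum_congr rfl
  intro σ _
  have h1 : (σ x = s ∧ σ j = r ∧ σ y = t) ↔ (σ x = s ∧ σ y = t ∧ σ j = r) := by tauto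
  simp only [h1]

theorem iZ3_swap' {V ι : Type} [Fintype V] [DecidableEq V] (E : Finset ι) (a b : ι → V)
    (J : ι → ℝ) (h : V → ℝ) (x y j : V) (s t r : Bool) :
    iZ3 E a b J h y x j t s r = iZ3 E a b J h x y j s t r := by
  unfold iZ3
  apply Finset.sum_congr rfl
  intro σ _
  have h1 : (σ y = t ∧ σ x = s ∧ σ j = r) ↔ (σ x = s ∧ σ y = t ∧ σ j = r) := by tauto
  simp only [h1]

/-- splitting according to the third spin -/
theorem split3 {V : Type} [Fintype V] [DecidableEq V] (x y j : V) (s t : Bool)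
    (φ : (V → Bool) → ℝ) :
    ∑ σ : V → Bool, (if σ x = s ∧ σ y = t then φ σ else 0)
      = ∑ r : Bool, ∑ σ : V → Bool, (if σ x = s ∧ σ y = t ∧ σ j = r then φ σ else 0) := by
  rw [Finset.sum_comm]
  apply Finset.sum_congr rfl
  intro σ _
  rw [Fintype.sum_bool]
  by_cases h1 : σ x = s ∧ σ y = t
  · rw [if_pos h1]
    cases h2 : σ j
    · rw [if_neg (by rintro ⟨_, _, h3⟩; exact absurd h3 (by simp)), if_pos ⟨h1.1, h1.2, rfl⟩,
        zero_add]
    · rw [if_pos ⟨h1.1, h1.2, rfl⟩, if_neg (by rintro ⟨_, _, h3⟩; exact absurd h3 (by simp)),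
        add_zero]
  · rw [if_neg h1, if_neg (fun h2 => h1 ⟨h2.1, h2.2.1⟩), if_neg (fun h2 => h1 ⟨h2.1, h2.2.1⟩),
      add_zero]

/-- the partition function with the edge `e` -/
theorem iZ2_edge {V ι : Type} [Fintype V] [DecidableEq V] [DecidableEq ι] (E : Finset ι)
    (a b : ι → V) (J : ι → ℝ) (h : V → ℝ) (x y j : V) (e : ι) (he : e ∈ E)
    (hab : (a e = x ∧ b e = j) ∨ (a e = j ∧ b e = x)) (s t : Bool) :
    iZ2 E a b J h x y s t = tri (fun s t r => iZ3 (E.erase e) a b J h x y j s t r) (J e) 0 s t := by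
  unfold iZ2 tri
  rw [split3 x y j s t]
  apply Finset.sum_congr rfl
  intro r _
  unfold iZ3
  rw [Finset.mul_sum]
  apply Finset.sum_congr rfl
  intro σ _
  by_cases h1 : σ x = s ∧ σ y = t ∧ σ j = r
  · rw [if_pos h1, if_pos h1, ← Real.exp_add]
    congr 1
    unfold iE
    rw [← Finset.add_sum_erase E _ he]
    have h2 : sg (σ (a e)) * sg (σ (b e)) = sg s * sg r := by
      rcases hab with ⟨h3, h4⟩ | ⟨h3, h4⟩
      · rw [h3, h4, h1.1, h1.2.2]
      · rw [h3, h4, h1.1, h1.2.2, mul_comm]
    rw [h2]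
    ring
  · rw [if_neg h1, if_neg h1, mul_zero]

/-- a field on the third spin -/
theorem iZ2_field {V ι : Type} [Fintype V] [DecidableEq V] (E : Finset ι)
    (a b : ι → V) (J : ι → ℝ) (h : V → ℝ) (x y j : V) (c : ℝ) (s t : Bool) :
    tri (fun s t r => iZ3 E a b J h x y j s t r) 0 c s t
      = iZ2 E a b J (h + Pi.single j c) x y s t := by
  unfold iZ2 tri
  rw [split3 x y j s t]
  apply Finset.sum_congr rfl
  intro r _
  unfold iZ3
  rw [Finset.mul_sum]
  apply Finset.sum_congr rfl
  intro σ _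
  by_cases h1 : σ x = s ∧ σ y = t ∧ σ j = r
  · rw [if_pos h1, if_pos h1, ← Real.exp_add]
    congr 1
    unfold iE
    have h2 : ∑ v, (h + (Pi.single j c : V → ℝ)) v * sg (σ v) = ∑ v, h v * sg (σ v) + c * sg r := by
      simp only [Pi.add_apply, add_mul, Finset.sum_add_distrib]
      congr 1
      rw [Finset.sum_eq_single j]
      · rw [Pi.single_eq_same, h1.2.2]
      · intro v _ hv
        rw [Pi.single_eq_of_ne hv, zero_mul]
      · intro hj
        exact absurd (Finset.mem_univ j) hj
    rw [h2]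
    ring
  · rw [if_neg h1, if_neg h1, mul_zero]

theorem tri_zero {V ι : Type} [Fintype V] [DecidableEq V] (E : Finset ι)
    (a b : ι → V) (J : ι → ℝ) (x y j : V) (s t : Bool) :
    tri (fun s t r => iZ3 E a b J 0 x y j s t r) 0 0 s t = iZ2 E a b J 0 x y s t := by
  rw [iZ2_field]
  simp

/-- cancelling the common factor -/
theorem cancel {A B C D W U p q : ℝ} (hp : 0 < p) (hq : 0 < q)
    (h : (A * p) * (B * q) * (W * 2) ^ 2 ≤ (C * p) * (D * q) * (U * 2) ^ 2) :
    A * B * W ^ 2 ≤ C * D * U ^ 2 := by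
  have h1 : 0 < p * q * 4 := by positivity
  have h2 : (A * B * W ^ 2) * (p * q * 4) ≤ (C * D * U ^ 2) * (p * q * 4) := by
    calc (A * B * W ^ 2) * (p * q * 4) = (A * p) * (B * q) * (W * 2) ^ 2 := by ring
      _ ≤ _ := h
      _ = _ := by ring
  exact le_of_mul_le_mul_right h2 h1

/-- the merging inequality for `j` merged into `x` -/
theorem merged (hM : S_MERGE) {V ι : Type} [Fintype V] [DecidableEq V] (E : Finset ι)
    (a b : ι → V) (J : ι → ℝ) (h : V → ℝ) {x y j : V} (hxy : x ≠ y) (hxj : x ≠ j) (hyj : y ≠ j)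
    (hI : dssI E (fun e => if a e = j then x else a e) (fun e => if b e = j then x else b e)
      J h x y) :
    iZ3 E a b J h x y j true true true * iZ3 E a b J h x y j false false false *
        iZ3 E a b J 0 x y j true false true ^ 2 ≤
      iZ3 E a b J h x y j true false true * iZ3 E a b J h x y j false true false *
        iZ3 E a b J 0 x y j true true true ^ 2 := by
  unfold dssI at hI
  simp only [hM V ι E a b J h x y j hxy hxj hyj, hM V ι E a b J 0 x y j hxy hxj hyj] at hI
  have e0 : ∀ s : Bool, 1 + Real.exp (-2 * (0 : V → ℝ) j * sg s) = 2 := by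
    intro s
    simp
    norm_num
  rw [e0] at hI
  exact cancel (by positivity) (by positivity) hI

theorem pf_STEP (hK : S_KEYZ) (hF : S_FKG3) (hM : S_MERGE) : S_STEP := by
  intro V ι _ _ _ E a b J h x y j e hJ hxy hxj hyj he hab hI
  unfold dssI
  simp only [iZ2_edge E a b J h x y j e he hab, iZ2_edge E a b J 0 x y j e he hab]
  apply hK (fun s t r => iZ3 (E.erase e) a b J h x y j s t r)
    (fun s t r => iZ3 (E.erase e) a b J 0 x y j s t r) (J e) (hJ e)
  · intro s t r
    exact iZ3_pos _ _ _ _ _ hxy hxj hyj s t r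
  · intro s t r
    exact iZ3_pos _ _ _ _ _ hxy hxj hyj s t r
  · intro s t r
    exact iZ3_flip _ _ _ _ _ _ _ s t r
  · intro t
    have h1 := hF V ι (E.erase e) a b J h x j y t hJ hxj hxy hyj.symm
    simp only [iZ3_swap (E.erase e) a b J h x y j] at h1
    exact h1
  · intro s
    have h1 := hF V ι (E.erase e) a b J h y j x s hJ hyj hxy.symm hxj.symm
    simp only [iZ3_swap (E.erase e) a b J h y x j, iZ3_swap' (E.erase e) a b J h x y j] at h1
    exact h1
  · intro t
    have h1 := hF V ι (E.erase e) a b J 0 x j y t hJ hxj hxy hyj.symm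
    simp only [iZ3_swap (E.erase e) a b J 0 x y j] at h1
    exact h1
  · intro s
    have h1 := hF V ι (E.erase e) a b J 0 y j x s hJ hyj hxy.symm hxj.symm
    simp only [iZ3_swap (E.erase e) a b J 0 y x j, iZ3_swap' (E.erase e) a b J 0 x y j] at h1
    exact h1
  · exact merged hM (E.erase e) a b J h hxy hxj hyj (hI _ _ _ _ _ hxy)
  · have h1 := merged hM (E.erase e) a b J h hxy.symm hyj hxj (hI _ _ _ _ _ hxy.symm)
    simp only [iZ3_swap' (E.erase e) a b J h x y j, iZ3_swap' (E.erase e) a b J 0 x y j] at h1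
    have h2 : iZ3 (E.erase e) a b J 0 x y j false true true
        = iZ3 (E.erase e) a b J 0 x y j true false false :=
      (iZ3_flip (E.erase e) a b J x y j true false false)
    rw [h2] at h1
    have h3 : iZ3 (E.erase e) a b J h x y j true false false *
        iZ3 (E.erase e) a b J h x y j false true true
        = iZ3 (E.erase e) a b J h x y j false true true *
        iZ3 (E.erase e) a b J h x y j true false false := mul_comm _ _
    show iZ3 (E.erase e) a b J h x y j true true true *
        iZ3 (E.erase e) a b J h x y j false false false *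
        iZ3 (E.erase e) a b J 0 x y j true false false ^ 2 ≤
      iZ3 (E.erase e) a b J h x y j true false false *
        iZ3 (E.erase e) a b J h x y j false true true *
        iZ3 (E.erase e) a b J 0 x y j true true true ^ 2
    rw [h3]
    exact h1
  · have h1 := merged hM (E.erase e) a b J h hxj hxy hyj.symm (hI _ _ _ _ _ hxj)
    simp only [iZ3_swap (E.erase e) a b J h x y j, iZ3_swap (E.erase e) a b J 0 x y j] at h1
    exact h1
  · intro c
    simp only [iZ2_field]
    have h1 := hI a b (h + Pi.single j c) x y hxy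
    unfold dssI at h1
    simpa using h1

end Pool.Agent.Helper33.Isg
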